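import Pool.Agent.W217.BE.Stm3

set_option autoImplicit false

namespace Pool.Agent.W836.BEDUALM
open Pool.Agent.W217.BE

theorem main : HTPY → MAC → DUALM := by
  intro htpy mac B _ _ _ N _ _ r dX ε e hres hm hann h5 h4 he hht
  have h0 : Function.Surjective ε := hres.1
  have h1 : LinearMap.range (dX 0) = LinearMap.ker ε := hres.2.1
  have h2 : ∀ i, LinearMap.range (dX (i + 1)) = LinearMap.ker (dX i) := hres.2.2
  have hdd : ∀ i x, dX i (dX (i + 1) x) = 0 := by
    intro i x
    have : dX (i + 1) x ∈ LinearMap.ker (dX i) := by rw [← h2 i]; exact ⟨x, rfl⟩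
    exact this
  obtain ⟨D, hD⟩ : ∃ D : Matrix (Fin (r 3)) (Fin (r 4)) B, D = LinearMap.toMatrix' (dX 3) :=
    ⟨_, rfl⟩
  have hDe : ∀ i j, D i j ∈ IsLocalRing.maximalIdeal B := by
    intro i j
    rw [hD, LinearMap.toMatrix'_apply]
    exact hm 3 _ i
  -- the transpose
  obtain ⟨T, hT⟩ : ∃ T : (Fin (r 3) → B) →ₗ[B] (Fin (r 4) → B), T = D.transpose.mulVecLin :=
    ⟨_, rfl⟩
  have hTm : ∀ x j, T x j ∈ IsLocalRing.maximalIdeal B := by
    intro x j
    rw [hT, Matrix.mulVecLin_apply, Matrix.mulVec, dotProduct]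
    refine Ideal.sum_mem _ fun i _ => Ideal.mul_mem_right _ _ ?_
    rw [Matrix.transpose_apply]
    exact hDe i j
  have hnt : Nontrivial ((Fin (r 4) → B) ⧸ LinearMap.range T) := by
    rw [Submodule.Quotient.nontrivial_iff]
    intro htop
    have j0 : Fin (r 4) := ⟨0, Nat.pos_of_ne_zero h4⟩
    have hmem : (Pi.single j0 1 : Fin (r 4) → B) ∈ LinearMap.range T := by
      rw [htop]; exact Submodule.mem_top
    obtain ⟨x, hx⟩ := hmem
    have h6 := hTm x j0
    rw [hx, Pi.single_eq_same] at h6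
    exact (Ideal.ne_top_iff_one _).mp (IsLocalRing.maximalIdeal.isMaximal B).ne_top h6
  have hannle : Module.annihilator B N ≤
      Module.annihilator B ((Fin (r 4) → B) ⧸ LinearMap.range T) := by
    intro x hx
    rw [Module.mem_annihilator] at hx ⊢
    obtain ⟨h, hh0, hh⟩ := htpy B N (fun i => Fin (r i) → B) (fun i => Fin (r i) → B) dX dX ε
      (fun i => x • LinearMap.id) hdd hres
      (by
        intro y
        show ε (x • y) = 0
        rw [map_smul]
        exact hx _)
      (by
        intro i y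
        show dX i (x • y) = x • dX i y
        rw [map_smul])
    have h7 : ∀ y : Fin (r 4) → B, x • y = h 3 (dX 3 y) := by
      intro y
      have h8 := hh 3 y
      have hs : ∀ z : Fin (r 5) → B, dX 4 z = 0 := by
        intro z
        have he' : IsEmpty (Fin (r 5)) := by rw [h5]; infer_instance
        rw [Subsingleton.elim z 0, map_zero]
      have h9 : x • y = dX 4 (h 4 y) + h 3 (dX 3 y) := h8
      rw [h9, hs, zero_add]
    obtain ⟨H, hH⟩ : ∃ H : Matrix (Fin (r 4)) (Fin (r 3)) B, H = LinearMap.toMatrix' (h 3) :=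
      ⟨_, rfl⟩
    have h10 : H * D = x • (1 : Matrix (Fin (r 4)) (Fin (r 4)) B) := by
      rw [hH, hD, ← LinearMap.toMatrix'_comp, ← LinearMap.toMatrix'_id, ← map_smul]
      congr 1
      refine LinearMap.ext fun y => ?_
      exact (h7 y).symm
    have h11 : D.transpose * H.transpose = x • (1 : Matrix (Fin (r 4)) (Fin (r 4)) B) := by
      rw [← Matrix.transpose_mul, h10, Matrix.transpose_smul, Matrix.transpose_one]
    intro z
    obtain ⟨y, rfl⟩ := Submodule.mkQ_surjective (LinearMap.range T) z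
    rw [← map_smul, Submodule.mkQ_apply, Submodule.Quotient.mk_eq_zero]
    refine ⟨H.transpose.mulVec y, ?_⟩
    rw [hT, Matrix.mulVecLin_apply, Matrix.mulVec_mulVec, h11, Matrix.smul_mulVec, Matrix.one_mulVec]
  exact mac B ((Fin (r 4) → B) ⧸ LinearMap.range T) (r 4) (r 3) e T
    (Submodule.mkQ (LinearMap.range T)) hTm (Submodule.mkQ_surjective _)
    (Submodule.ker_mkQ _).symm (fun q hq1 hq2 => hann q hq1 (hannle.trans hq2)) he hht

end Pool.Agent.W836.BEDUALM
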