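import Pool.Agent.W217.BE.Stm

set_option autoImplicit false

namespace Pool.Agent.W836.BELOC
open Pool.Agent.W217.BE

theorem isF_zero {B : Type} [CommRing B] [IsLocalRing B] {n : ℕ}
    (L : (Fin n → B) →+ IsLocalRing.ResidueField B) (hL : IsF (IsLocalRing.residue B) L)
    (y : Fin n → B) (hy : ∀ j, y j ∈ IsLocalRing.maximalIdeal B) : L y = 0 := by
  have h : y = ∑ j, y j • (Pi.single j 1 : Fin n → B) := by
    conv_lhs => rw [← Finset.univ_sum_single y]
    refine Finset.sum_congr rfl fun j _ => ?_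
    rw [← Pi.single_smul, smul_eq_mul, mul_one]
  rw [h, map_sum]
  refine Finset.sum_eq_zero fun j _ => ?_
  rw [hL, (IsLocalRing.residue_eq_zero_iff _).mpr (hy j), zero_mul]

theorem cert {B : Type} [CommRing B] [IsLocalRing B] (r : ℕ → ℕ)
    (d : ∀ i, (Fin (r (i + 1)) → B) →ₗ[B] (Fin (r i) → B))
    (hm : ∀ i x j, d i x j ∈ IsLocalRing.maximalIdeal B) (i n : ℕ) (hn : n ≤ r i) :
    Cert (IsLocalRing.residue B) (fun i => Fin (r i) → B) d i n := by
  refine ⟨fun j => Pi.single (Fin.castLE hn j) 1,
    fun j => ((IsLocalRing.residue B).toAddMonoidHom).comp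
      (Pi.evalAddMonoidHom (fun _ : Fin (r i) => B) (Fin.castLE hn j)), ?_, ?_, ?_, ?_⟩
  · intro j
    cases i with
    | zero => trivial
    | succ k =>
      intro L hL
      exact isF_zero L hL _ (fun l => hm k _ l)
  · intro j s x
    show IsLocalRing.residue B ((s • x) (Fin.castLE hn j)) =
      IsLocalRing.residue B s * IsLocalRing.residue B (x (Fin.castLE hn j))
    rw [Pi.smul_apply, smul_eq_mul, map_mul]
  · intro j x
    show IsLocalRing.residue B (d i x (Fin.castLE hn j)) = 0
    exact (IsLocalRing.residue_eq_zero_iff _).mpr (hm i x _)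
  · intro j k
    show IsLocalRing.residue B ((Pi.single (Fin.castLE hn k) 1 : Fin (r i) → B)
      (Fin.castLE hn j)) = _
    rw [Pi.single_apply]
    by_cases h : j = k
    · rw [if_pos h, if_pos (by rw [h]), map_one]
    · rw [if_neg h, if_neg (fun h' => h (Fin.castLE_injective hn h')), map_zero]

theorem main : MINRES → RK1 → RK2 → RK3 → INDEP → LOC := by
  intro hmin hrk1 hrk2 hrk3 hind B _ _ _ N _ _ _ _ c hc hq
  intro Y _ _ _ dY εY hY i
  obtain ⟨r, d, ε, hres, hm⟩ := hmin B N
  have h0 : Function.Surjective ε := hres.1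
  have h1 : LinearMap.range (d 0) = LinearMap.ker ε := hres.2.1
  have h2 : LinearMap.range (d 1) = LinearMap.ker (d 0) := hres.2.2 0
  refine hind B _ (IsLocalRing.residue B) N (fun i => Fin (r i) → B) Y d ε dY εY hres hY i _
    (cert r d hm i _ ?_)
  have r0 : 1 ≤ r 0 := by
    by_contra h
    have h' : r 0 = 0 := by omega
    have : IsEmpty (Fin (r 0)) := by rw [h']; infer_instance
    have : Subsingleton N := h0.subsingleton
    exact not_subsingleton N this
  have r1 : 1 ≤ c → 1 ≤ r 1 := by
    intro hc1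
    by_contra h
    have h' : r 1 = 0 := by omega
    have : IsEmpty (Fin (r 1)) := by rw [h']; infer_instance
    have hr : LinearMap.range (d 0) = ⊥ := by
      rw [LinearMap.range_eq_bot]
      refine LinearMap.ext fun x => ?_
      rw [Subsingleton.elim x 0, map_zero, map_zero]
    have hk : LinearMap.ker ε = ⊥ := by rw [← h1, hr]
    exact hrk1 B N (fun q hq1 hq2 => le_trans (by exact_mod_cast hc1) (hq q hq1 hq2)) (r 0)
      (LinearEquiv.ofBijective ε ⟨LinearMap.ker_eq_bot.mp hk, h0⟩)
  have r1' : c = 2 → 2 ≤ r 1 := by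
    intro hc2
    by_contra h
    have h' : r 1 = 1 := by have := r1 (by omega); omega
    have j0 : Fin (r 1) := ⟨0, by omega⟩
    refine hrk2 B N (fun q hq1 hq2 => le_trans (by rw [hc2]; exact le_rfl) (hq q hq1 hq2)) (r 0) ε
      (d 0 (fun _ => 1)) (fun j => hm 0 _ j) h0 ?_
    rw [← h1]
    apply le_antisymm
    · rintro _ ⟨x, rfl⟩
      rw [Submodule.mem_span_singleton]
      refine ⟨x j0, ?_⟩
      rw [← map_smul]
      congr 1
      funext j
      have hj : (j : ℕ) < r 1 := j.2
      have hj0 : (j0 : ℕ) < r 1 := j0.2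
      have : j = j0 := Fin.ext (by omega)
      rw [this, Pi.smul_apply, smul_eq_mul, mul_one]
    · rw [Submodule.span_singleton_le_iff_mem]
      exact ⟨_, rfl⟩
  have r2 : c = 2 → 1 ≤ r 2 := by
    intro hc2
    by_contra h
    have h' : r 2 = 0 := by omega
    have : IsEmpty (Fin (r 2)) := by rw [h']; infer_instance
    have hr : LinearMap.range (d 1) = ⊥ := by
      rw [LinearMap.range_eq_bot]
      refine LinearMap.ext fun x => ?_
      rw [Subsingleton.elim x 0, map_zero, map_zero]
    have hk : LinearMap.ker (d 0) = ⊥ := by rw [← h2, hr]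
    exact hrk3 B N (fun q hq1 hq2 => le_trans (by rw [hc2]; exact le_rfl) (hq q hq1 hq2)) (r 1) (r 0)
      (d 0) ε (LinearMap.ker_eq_bot.mp hk) (fun x j => hm 0 x j) h0 h1
  show c.choose i ≤ r i
  rcases i with _ | _ | _ | i
  · rw [Nat.choose_zero_right]; exact r0
  · rw [Nat.choose_one_right]
    interval_cases c
    · exact Nat.zero_le _
    · exact r1 le_rfl
    · exact r1' rfl
  · interval_cases c
    · exact Nat.zero_le _
    · exact Nat.zero_le _
    · exact r2 rfl
  · rw [Nat.choose_eq_zero_of_lt (by omega)]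
    exact Nat.zero_le _

end Pool.Agent.W836.BELOC
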